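import Mathlib

/-! For every integer `q ≥ 1` there is a complex number `v` of modulus one such that `q ^ (-k)` is
an integer combination of `1`, `v ^ k`, `v ^ (-k')` whenever `1 ≤ k ≤ k'`. -/

set_option autoImplicit false

namespace Pool.Agent.Helper24.RG

/-- The Lucas sequence `U_0 = 0`, `U_1 = 1`, `U_(n+2) = U_(n+1) - q U_n`. -/
def lucU (q : ℤ) : ℕ → ℤ
  | 0 => 0
  | 1 => 1
  | n + 2 => lucU q (n + 1) - q * lucU q n

theorem lucU_mod (q : ℤ) : ∀ n, ∃ t, lucU q (n + 1) = 1 + q * t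
  | 0 => ⟨0, by rw [lucU]; ring⟩
  | n + 1 => by
    obtain ⟨t, ht⟩ := lucU_mod q n
    refine ⟨t - lucU q n, ?_⟩
    rw [lucU, ht]
    ring

theorem pow_lucU (q : ℤ) (a : ℂ) (ha : a ^ 2 = a - q) (n : ℕ) :
    a ^ (n + 1) = lucU q (n + 1) * a - q * lucU q n := by
  induction n with
  | zero => simp [lucU]
  | succ n ih =>
    rw [pow_succ, ih, lucU]
    push_cast
    linear_combination (lucU q (n + 1) : ℂ) * ha

theorem lucas (q : ℕ) (hq : 1 ≤ q) : ∃ v : ℂ, ‖v‖ = 1 ∧ ∀ k k' : ℕ, 1 ≤ k → k ≤ k' →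
    ∃ x y z : ℤ, (x : ℂ) + y * v ^ k + z * (v⁻¹) ^ k' = ((q : ℂ) ^ k)⁻¹ := by
  have hq0 : (q : ℂ) ≠ 0 := by exact_mod_cast (by omega : q ≠ 0)
  have hq1 : (1 : ℝ) ≤ q := by exact_mod_cast hq
  set r : ℝ := √(4 * q - 1) with hr
  have hr2 : r * r = 4 * q - 1 := Real.mul_self_sqrt (by linarith)
  have hr2c : ((r : ℂ)) * r = 4 * q - 1 := by exact_mod_cast congrArg (fun x : ℝ => (x : ℂ)) hr2
  set a : ℂ := (1 + r * Complex.I) / 2 with ha
  set b : ℂ := (1 - r * Complex.I) / 2 with hb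
  have hab : a * b = q := by
    rw [ha, hb]
    have : (Complex.I) ^ 2 = -1 := Complex.I_sq
    linear_combination (1 / 4 : ℂ) * hr2c - (1 / 4) * (r : ℂ) * r * this
  have hsum : a + b = 1 := by rw [ha, hb]; ring
  have ha2 : a ^ 2 = a - ((q : ℤ) : ℂ) := by
    push_cast
    linear_combination a * hsum - hab
  have hb2 : b ^ 2 = b - ((q : ℤ) : ℂ) := by
    push_cast
    linear_combination b * hsum - hab
  have ha0 : a ≠ 0 := fun h => hq0 (by rw [← hab, h, zero_mul])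
  have hb0 : b ≠ 0 := fun h => hq0 (by rw [← hab, h, mul_zero])
  have hconj : (starRingEnd ℂ) a = b := by
    rw [ha, hb, map_div₀, map_add, map_mul, Complex.conj_ofReal, Complex.conj_I, map_one]
    simp only [map_ofNat]
    ring
  have hnorm : ‖b‖ = ‖a‖ := by rw [← hconj, Complex.norm_conj]
  refine ⟨a / b, by rw [norm_div, hnorm, div_self (norm_ne_zero_iff.2 ha0)], ?_⟩
  intro k k' hk hkk
  have hv : a / b = a ^ 2 / q := by
    rw [← hab]
    field_simp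
  have hv' : (a / b)⁻¹ = b ^ 2 / q := by
    rw [← hab]
    field_simp
  obtain ⟨k, rfl⟩ : ∃ m, k = m + 1 := ⟨k - 1, by omega⟩
  obtain ⟨d, rfl⟩ : ∃ d, k' = k + 1 + d := ⟨k' - (k + 1), by omega⟩
  set A : ℤ := lucU q (2 * k + 1 + 1) with hA
  set A' : ℤ := lucU q (2 * k + 1) with hA'
  set C : ℤ := lucU q (2 * (k + d) + 1 + 1) with hC
  set C' : ℤ := lucU q (2 * (k + d) + 1) with hC'
  set B : ℤ := A * (C - q * C') - q * A' * C with hB
  have hcop : IsCoprime B ((q : ℤ) ^ (k + 1)) := by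
    refine IsCoprime.pow_right ?_
    obtain ⟨t1, h1⟩ := lucU_mod q (2 * k + 1)
    obtain ⟨t2, h2⟩ := lucU_mod q (2 * (k + d) + 1)
    refine ⟨1, -(t1 + t2 + q * t1 * t2 - A * C' - A' * C), ?_⟩
    rw [hB, ← hA] at *
    rw [← hC] at h2
    rw [h1, h2]
    ring
  obtain ⟨w, x, hwx⟩ := hcop
  refine ⟨x, C * w, (q : ℤ) ^ d * A * w, ?_⟩
  have e1 : (a / b) ^ (k + 1) = (A * a - q * A') / (q : ℂ) ^ (k + 1) := by
    rw [hv, div_pow, ← pow_mul]
    congr 1
    have := pow_lucU q a ha2 (2 * k + 1)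
    rw [show 2 * (k + 1) = 2 * k + 1 + 1 by ring, this]
    push_cast
    rfl
  have e2 : ((a / b)⁻¹) ^ (k + 1 + d) = (C * b - q * C') / ((q : ℂ) ^ (k + 1) * (q : ℂ) ^ d) := by
    rw [hv', div_pow, ← pow_mul, ← pow_add]
    congr 1
    have := pow_lucU q b hb2 (2 * (k + d) + 1)
    rw [show 2 * (k + 1 + d) = 2 * (k + d) + 1 + 1 by ring, this]
    push_cast
    rfl
  rw [e1, e2]
  have hqk : (q : ℂ) ^ (k + 1) ≠ 0 := pow_ne_zero _ hq0
  have hqd : (q : ℂ) ^ d ≠ 0 := pow_ne_zero _ hq0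
  have hw : (w : ℂ) * B + x * (q : ℂ) ^ (k + 1) = 1 := by exact_mod_cast hwx
  rw [hB] at hw
  push_cast at hw ⊢
  have hb' : b = 1 - a := by linear_combination hsum
  rw [hb']
  field_simp
  linear_combination hw

end Pool.Agent.Helper24.RG
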