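import Mathlib

/-! Rota's maximal inequality for products of commuting averages of measure preserving maps. -/

set_option autoImplicit false
set_option linter.unusedSectionVars false

open MeasureTheory

namespace Pool.Agent.Helper24.RG

section
variable {ι : ℕ → Type} [∀ i, Fintype (ι i)] [∀ i, Nonempty (ι i)]

/-- The average over all tuples of length `n`. -/
noncomputable def av (ι : ℕ → Type) [∀ i, Fintype (ι i)] (n : ℕ)
    (F : (∀ i : Fin n, ι i) → ℝ) : ℝ :=
  (Fintype.card (∀ i : Fin n, ι i) : ℝ)⁻¹ * ∑ a, F a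

omit [∀ i, Nonempty (ι i)] in
theorem av_mono {n : ℕ} {F H : (∀ i : Fin n, ι i) → ℝ} (h : ∀ a, F a ≤ H a) :
    av ι n F ≤ av ι n H := by
  unfold av
  exact mul_le_mul_of_nonneg_left (Finset.sum_le_sum fun a _ => h a) (by positivity)

theorem card_pos' (n : ℕ) : (0 : ℝ) < (Fintype.card (∀ i : Fin n, ι i) : ℝ) := by
  exact_mod_cast Fintype.card_pos

theorem av_const (n : ℕ) (c : ℝ) : av ι n (fun _ => c) = c := by
  unfold av
  rw [Finset.sum_const, Finset.card_univ, nsmul_eq_mul, ← mul_assoc,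
    inv_mul_cancel₀ (card_pos' n).ne', one_mul]

omit [∀ i, Nonempty (ι i)] in
theorem av_add {n : ℕ} (F H : (∀ i : Fin n, ι i) → ℝ) :
    av ι n (fun a => F a + H a) = av ι n F + av ι n H := by
  unfold av
  rw [Finset.sum_add_distrib, mul_add]

/-- The average over the tuples of length `n + 1` of a function of the first `n` entries. -/
theorem av_succ (n : ℕ) (F : (∀ i : Fin n, ι i) → ℝ) :
    av ι (n + 1) (fun a => F (fun i => a i.castSucc)) = av ι n F := by
  unfold av
  have e := Fin.snocEquiv (fun i : Fin (n + 1) => ι i)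
  have h1 : ∑ a : (∀ i : Fin (n + 1), ι i), F (fun i => a i.castSucc) =
      ∑ p : ι n × (∀ i : Fin n, ι i), F p.2 := by
    refine (Fintype.sum_equiv (Fin.snocEquiv (fun i : Fin (n + 1) => ι i)) _ _ ?_).symm
    rintro ⟨c, a⟩
    show F a = F (fun i => (Fin.snoc a c : ∀ i : Fin (n + 1), ι i) i.castSucc)
    congr 1
    funext i
    exact (Fin.snoc_castSucc (α := fun i : Fin (n + 1) => ι i) c a i).symm
  have h2 : (Fintype.card (∀ i : Fin (n + 1), ι i) : ℝ) =
      (Fintype.card (ι n) : ℝ) * Fintype.card (∀ i : Fin n, ι i) := by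
    rw [← Nat.cast_mul]
    congr 1
    rw [← Fintype.card_prod]
    exact (Fintype.card_congr (Fin.snocEquiv (fun i : Fin (n + 1) => ι i))).symm
  rw [h1, h2, Fintype.sum_prod_type]
  simp only [Finset.sum_const, Finset.card_univ, nsmul_eq_mul]
  have h3 : (Fintype.card (ι n) : ℝ) ≠ 0 := by
    exact_mod_cast Fintype.card_ne_zero
  have h4 : (Fintype.card (∀ i : Fin n, ι i) : ℝ) ≠ 0 := (card_pos' n).ne'
  field_simp

theorem av_castLE {n N : ℕ} (h : n ≤ N) (F : (∀ i : Fin n, ι i) → ℝ) :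
    av ι N (fun a => F (fun i => a (Fin.castLE h i))) = av ι n F := by
  induction N, h using Nat.le_induction with
  | base => rfl
  | succ N h ih =>
    rw [← ih]
    exact av_succ N (fun a => F (fun i => a (Fin.castLE h i)))

/-- Splicing: a function of the entries with index `≥ n` and a function of the entries with index
`< n` are independent. -/
theorem splice {N : ℕ} (n : ℕ) (G F : (∀ i : Fin N, ι i) → ℝ)
    (hG : ∀ a b : ∀ i : Fin N, ι i, (∀ i : Fin N, n ≤ i.1 → a i = b i) → G a = G b)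
    (hF : ∀ a b : ∀ i : Fin N, ι i, (∀ i : Fin N, i.1 < n → a i = b i) → F a = F b) :
    av ι N (fun a => G a * F a) = av ι N (fun a => G a * av ι N F) := by
  classical
  have hc := (card_pos' (ι := ι) N).ne'
  have key : ∑ p : (∀ i : Fin N, ι i) × (∀ i : Fin N, ι i), G p.1 * F p.2 =
      ∑ p : (∀ i : Fin N, ι i) × (∀ i : Fin N, ι i), G p.1 * F p.1 := by
    let σ : (∀ i : Fin N, ι i) × (∀ i : Fin N, ι i) → (∀ i : Fin N, ι i) × (∀ i : Fin N, ι i) :=
      fun p => (fun i => if i.1 < n then p.2 i else p.1 i, fun i => if i.1 < n then p.1 i else p.2 i)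
    have hσ : Function.Involutive σ := by
      rintro ⟨a, b⟩
      refine Prod.ext ?_ ?_
      · funext i
        by_cases h : i.1 < n <;> simp [σ, h]
      · funext i
        by_cases h : i.1 < n <;> simp [σ, h]
    refine Fintype.sum_equiv hσ.toPerm _ _ ?_
    rintro ⟨a, b⟩
    show G a * F b = G (fun i => if i.1 < n then b i else a i) *
      F (fun i => if i.1 < n then b i else a i)
    congr 1
    · refine hG _ _ fun i hi => ?_
      rw [if_neg (not_lt.2 hi)]
    · refine hF _ _ fun i hi => ?_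
      rw [if_pos hi]
  rw [Fintype.sum_prod_type, Fintype.sum_prod_type] at key
  simp only [← Finset.mul_sum, Finset.sum_const, Finset.card_univ, nsmul_eq_mul] at key
  show (Fintype.card (∀ i : Fin N, ι i) : ℝ)⁻¹ * ∑ a : (∀ i : Fin N, ι i), G a * F a =
    (Fintype.card (∀ i : Fin N, ι i) : ℝ)⁻¹ * ∑ a : (∀ i : Fin N, ι i),
      G a * ((Fintype.card (∀ i : Fin N, ι i) : ℝ)⁻¹ * ∑ b, F b)
  generalize (Fintype.card (∀ i : Fin N, ι i) : ℝ) = c at hc key ⊢
  generalize (∑ b, F b) = S at key ⊢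
  have h1 : ∑ a : (∀ i : Fin N, ι i), G a * (c⁻¹ * S) =
      c⁻¹ * ∑ a : (∀ i : Fin N, ι i), G a * S := by
    rw [Finset.mul_sum]
    exact Finset.sum_congr rfl fun a _ => by ring
  have h2 : ∑ a : (∀ i : Fin N, ι i), G a * F a =
      c⁻¹ * ∑ a : (∀ i : Fin N, ι i), G a * S := by
    rw [key, Finset.mul_sum]
    refine Finset.sum_congr rfl fun a _ => ?_
    rw [← mul_assoc, mul_comm _ (G a), mul_assoc, inv_mul_cancel_left₀ hc]
  rw [h1, h2]

end

section
variable {ι : ℕ → Type} [∀ i, Fintype (ι i)] [∀ i, Nonempty (ι i)]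
variable {Ω G : Type*} [MeasurableSpace Ω] [CommGroup G]

/-- the partial product `∏_(i < n) u i (a i)` -/
def gp (u : ∀ i, ι i → G) {N : ℕ} (n : ℕ) (a : ∀ i : Fin N, ι i) : G :=
  ∏ i : Fin N, if i.1 < n then u i (a i) else 1

omit [∀ i, Fintype (ι i)] [∀ i, Nonempty (ι i)] in
theorem gp_congr (u : ∀ i, ι i → G) {N : ℕ} (n : ℕ) (a b : ∀ i : Fin N, ι i)
    (h : ∀ i : Fin N, i.1 < n → a i = b i) : gp u n a = gp u n b := by
  unfold gp
  refine Finset.prod_congr rfl fun i _ => ?_
  by_cases hi : i.1 < n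
  · rw [if_pos hi, if_pos hi, h i hi]
  · rw [if_neg hi, if_neg hi]

omit [∀ i, Fintype (ι i)] [∀ i, Nonempty (ι i)] in
/-- `g_m / g_n` depends only on the entries with index `≥ n` if `n ≤ m`. -/
theorem gp_div_congr (u : ∀ i, ι i → G) {N : ℕ} {n m : ℕ} (hnm : n ≤ m) (a b : ∀ i : Fin N, ι i)
    (h : ∀ i : Fin N, n ≤ i.1 → a i = b i) :
    gp u n a * (gp u m a)⁻¹ = gp u n b * (gp u m b)⁻¹ := by
  have key : ∀ c : ∀ i : Fin N, ι i, gp u m c =
      gp u n c * ∏ i : Fin N, (if n ≤ i.1 ∧ i.1 < m then u i (c i) else 1) := by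
    intro c
    unfold gp
    rw [← Finset.prod_mul_distrib]
    refine Finset.prod_congr rfl fun i _ => ?_
    by_cases hi : i.1 < n
    · rw [if_pos hi, if_pos (lt_of_lt_of_le hi hnm), if_neg (fun h => absurd h.1 (not_le.2 hi)),
        mul_one]
    · by_cases hm : i.1 < m
      · rw [if_pos hm, if_neg hi, if_pos ⟨not_lt.1 hi, hm⟩, one_mul]
      · rw [if_neg hm, if_neg hi, if_neg (fun h => hm h.2), one_mul]
  rw [key a, key b, mul_inv, mul_inv, mul_inv_cancel_left, mul_inv_cancel_left]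
  congr 1
  refine Finset.prod_congr rfl fun i _ => ?_
  by_cases hi : n ≤ i.1 ∧ i.1 < m
  · rw [if_pos hi, if_pos hi, h i hi.1]
  · rw [if_neg hi, if_neg hi]

/-- `Y_n(a, w)`: the average of `f (g_n(a') / g_n(a) w)` over `a'`. -/
noncomputable def Y (u : ∀ i, ι i → G) (M : G → Ω → Ω) (f : Ω → ℝ) {N : ℕ} (n : ℕ)
    (a : ∀ i : Fin N, ι i) (w : Ω) : ℝ :=
  av ι N (fun a' => f (M (gp u n a' * (gp u n a)⁻¹) w))

variable {μ : Measure Ω} [IsProbabilityMeasure μ] {M : G → Ω → Ω} {f : Ω → ℝ}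
  {u : ∀ i, ι i → G}

omit [∀ i, Nonempty (ι i)] in
theorem measurable_Y (hMP : ∀ g, MeasurePreserving (M g) μ μ) (hf : Measurable f) {N : ℕ} (n : ℕ)
    (a : ∀ i : Fin N, ι i) : Measurable (Y u M f n a) := by
  unfold Y av
  refine Measurable.const_mul ?_ _
  exact Finset.measurable_sum _ fun a' _ => hf.comp (hMP _).measurable

theorem Y_nonneg (hf0 : ∀ w, 0 ≤ f w) {N : ℕ} (n : ℕ) (a : ∀ i : Fin N, ι i) (w : Ω) :
    0 ≤ Y u M f n a w := by
  unfold Y
  rw [← av_const (ι := ι) N 0]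
  exact av_mono fun _ => hf0 _

theorem Y_le_one (hf1 : ∀ w, f w ≤ 1) {N : ℕ} (n : ℕ) (a : ∀ i : Fin N, ι i) (w : Ω) :
    Y u M f n a w ≤ 1 := by
  unfold Y
  rw [← av_const (ι := ι) N 1]
  exact av_mono fun _ => hf1 _

/-- `n` is the last index `≤ N` with `Y_n(a, w) > s`. -/
def B (u : ∀ i, ι i → G) (M : G → Ω → Ω) (f : Ω → ℝ) (s : ℝ) {N : ℕ} (n : ℕ)
    (a : ∀ i : Fin N, ι i) : Set Ω :=
  {w | s < Y u M f n a w ∧ ∀ m, n < m → m ≤ N → Y u M f m a w ≤ s}

omit [∀ i, Nonempty (ι i)] in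
theorem measurableSet_B (hMP : ∀ g, MeasurePreserving (M g) μ μ) (hf : Measurable f) (s : ℝ)
    {N : ℕ} (n : ℕ) (a : ∀ i : Fin N, ι i) : MeasurableSet (B u M f s n a) := by
  unfold B
  refine MeasurableSet.inter (measurableSet_lt measurable_const (measurable_Y hMP hf n a)) ?_
  have : {w | ∀ m, n < m → m ≤ N → Y u M f m a w ≤ s} =
      ⋂ m : ℕ, {w | n < m → m ≤ N → Y u M f m a w ≤ s} := by
    ext w; simp
  show MeasurableSet {w | ∀ m, n < m → m ≤ N → Y u M f m a w ≤ s}
  rw [this]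
  refine MeasurableSet.iInter fun m => ?_
  by_cases h1 : n < m
  · by_cases h2 : m ≤ N
    · simpa [h1, h2] using measurableSet_le (measurable_Y hMP hf m a) measurable_const
    · simp [h2]
  · simp [h1]

/-- The key identity (conditional expectation along the reversed filtration). -/
theorem key_int (hM1 : ∀ w, M 1 w = w) (hMm : ∀ g h w, M (g * h) w = M g (M h w))
    (hMP : ∀ g, MeasurePreserving (M g) μ μ) (hf : Measurable f) (hf0 : ∀ w, 0 ≤ f w)
    (hf1 : ∀ w, f w ≤ 1) (s : ℝ) {N : ℕ} (n : ℕ) :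
    av ι N (fun a => ∫ w, (B u M f s n a).indicator 1 w * Y u M f n a w ∂μ) =
      av ι N (fun a => ∫ w, (B u M f s n a).indicator 1 w * f w ∂μ) := by
  classical
  have hMinj : ∀ g w, M g⁻¹ (M g w) = w := fun g w => by
    rw [← hMm, inv_mul_cancel, hM1]
  -- substitution
  have hsub : ∀ (g : G) (h : Ω → ℝ), Measurable h → ∫ w, h w ∂μ = ∫ x, h (M g x) ∂μ := by
    intro g h hh
    have := (hMP g).integral_comp' (f := MeasurableEquiv.mk
      ⟨M g, M g⁻¹, hMinj g, fun w => by rw [← hMm, mul_inv_cancel, hM1]⟩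
      (hMP g).measurable (hMP g⁻¹).measurable) h
    exact this.symm
  have hB : ∀ a : ∀ i : Fin N, ι i, Measurable (fun w => (B u M f s n a).indicator (1 : Ω → ℝ) w) := fun a =>
    measurable_one.indicator (measurableSet_B (μ := μ) hMP hf s n a)
  have e1 : ∀ a : ∀ i : Fin N, ι i, ∫ w, (B u M f s n a).indicator 1 w * Y u M f n a w ∂μ =
      ∫ x, (B u M f s n a).indicator 1 (M (gp u n a) x) * Y u M f n a (M (gp u n a) x) ∂μ :=
    fun a => hsub (gp u n a) _ ((hB a).mul (measurable_Y (μ := μ) hMP hf n a))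
  have e2 : ∀ a : ∀ i : Fin N, ι i, ∫ w, (B u M f s n a).indicator 1 w * f w ∂μ =
      ∫ x, (B u M f s n a).indicator 1 (M (gp u n a) x) * f (M (gp u n a) x) ∂μ :=
    fun a => hsub (gp u n a) _ ((hB a).mul hf)
  -- the function `x ↦ Y_n(a, g_n(a) x)` does not depend on `a`
  have e3 : ∀ (a : ∀ i : Fin N, ι i) x, Y u M f n a (M (gp u n a) x) =
      av ι N (fun a' => f (M (gp u n a') x)) := by
    intro a x
    unfold Y
    congr 1
    funext a'
    rw [← hMm, inv_mul_cancel_right]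
  -- `B` depends only on the entries with index `≥ n`
  have e4 : ∀ (a b : ∀ i : Fin N, ι i) (x : Ω), (∀ i : Fin N, n ≤ i.1 → a i = b i) →
      ∀ m, n ≤ m → Y u M f m a (M (gp u n a) x) = Y u M f m b (M (gp u n b) x) := by
    intro a b x hab m hm
    unfold Y
    congr 1
    funext a'
    rw [← hMm, ← hMm, mul_assoc, mul_assoc, mul_comm (gp u m a)⁻¹, mul_comm (gp u m b)⁻¹,
      gp_div_congr u hm a b hab]
  have e5 : ∀ (a b : ∀ i : Fin N, ι i) (x : Ω), (∀ i : Fin N, n ≤ i.1 → a i = b i) →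
      (B u M f s n a).indicator (1 : Ω → ℝ) (M (gp u n a) x) =
        (B u M f s n b).indicator (1 : Ω → ℝ) (M (gp u n b) x) := by
    intro a b x hab
    have : (M (gp u n a) x ∈ B u M f s n a) ↔ (M (gp u n b) x ∈ B u M f s n b) := by
      unfold B
      simp only [Set.mem_ofPred_eq]
      rw [e4 a b x hab n le_rfl]
      refine and_congr Iff.rfl (forall_congr' fun m => ?_)
      refine forall_congr' fun hm => forall_congr' fun _ => ?_
      rw [e4 a b x hab m hm.le]
    by_cases h : M (gp u n a) x ∈ B u M f s n a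
    · rw [Set.indicator_of_mem h, Set.indicator_of_mem (this.1 h)]
      rfl
    · rw [Set.indicator_of_notMem h, Set.indicator_of_notMem (fun h' => h (this.2 h'))]
  have hint : ∀ (a : ∀ i : Fin N, ι i) (h : Ω → ℝ), Measurable h → (∀ x, 0 ≤ h x) →
      (∀ x, h x ≤ 1) → Integrable (fun x => (B u M f s n a).indicator (1 : Ω → ℝ)
        (M (gp u n a) x) * h x) μ := by
    intro a h hh h0 h1
    refine Integrable.of_bound (C := 1)
      (((hB a).comp (hMP _).measurable).mul hh).aestronglyMeasurable (Filter.Eventually.of_forall ?_)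
    intro x
    rw [Real.norm_eq_abs, abs_mul, abs_of_nonneg (h0 x)]
    have : |(B u M f s n a).indicator (1 : Ω → ℝ) (M (gp u n a) x)| ≤ 1 := by
      by_cases h : M (gp u n a) x ∈ B u M f s n a
      · rw [Set.indicator_of_mem h]; simp
      · rw [Set.indicator_of_notMem h]; simp
    calc _ ≤ 1 * 1 := mul_le_mul this (h1 x) (h0 x) zero_le_one
      _ = 1 := one_mul 1
  simp only [e1, e2]
  have e6 : ∀ a : ∀ i : Fin N, ι i, ∀ x, Y u M f n a (M (gp u n a) x) =
      av ι N (fun a' => f (M (gp u n a') x)) := e3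
  have i1 : ∀ a ∈ (Finset.univ : Finset (∀ i : Fin N, ι i)), Integrable (fun x =>
      (B u M f s n a).indicator (1 : Ω → ℝ) (M (gp u n a) x) * Y u M f n a (M (gp u n a) x)) μ :=
    fun a _ => hint a _ ((measurable_Y (μ := μ) hMP hf n a).comp (hMP _).measurable)
      (fun x => Y_nonneg hf0 n a _) (fun x => Y_le_one hf1 n a _)
  have i2 : ∀ a ∈ (Finset.univ : Finset (∀ i : Fin N, ι i)), Integrable (fun x =>
      (B u M f s n a).indicator (1 : Ω → ℝ) (M (gp u n a) x) * f (M (gp u n a) x)) μ :=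
    fun a _ => hint a _ (hf.comp (hMP _).measurable) (fun x => hf0 _) (fun x => hf1 _)
  have j1 := integral_finsetSum _ i1
  have j2 := integral_finsetSum _ i2
  show (Fintype.card (∀ i : Fin N, ι i) : ℝ)⁻¹ * ∑ a : (∀ i : Fin N, ι i), ∫ x,
      (B u M f s n a).indicator (1 : Ω → ℝ) (M (gp u n a) x) * Y u M f n a (M (gp u n a) x) ∂μ =
    (Fintype.card (∀ i : Fin N, ι i) : ℝ)⁻¹ * ∑ a : (∀ i : Fin N, ι i), ∫ x,
      (B u M f s n a).indicator (1 : Ω → ℝ) (M (gp u n a) x) * f (M (gp u n a) x) ∂μ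
  rw [← j1, ← j2]
  congr 1
  refine integral_congr_ae (Filter.Eventually.of_forall fun x => ?_)
  have h7 := splice (ι := ι) (N := N) n
    (fun a => (B u M f s n a).indicator (1 : Ω → ℝ) (M (gp u n a) x))
    (fun a => f (M (gp u n a) x)) (fun a b h => e5 a b x h)
    (fun a b h => by rw [gp_congr u n a b h])
  unfold av at h7
  have h8 := mul_left_cancel₀ (inv_ne_zero (card_pos' (ι := ι) N).ne') h7
  show ∑ a, (B u M f s n a).indicator (1 : Ω → ℝ) (M (gp u n a) x) *
      Y u M f n a (M (gp u n a) x) = ∑ a, (B u M f s n a).indicator (1 : Ω → ℝ) (M (gp u n a) x) *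
      f (M (gp u n a) x)
  rw [h8]
  refine Finset.sum_congr rfl fun a _ => ?_
  rw [e6]
  rfl

/-- the event that some `Y_n(a, ·)`, `n ≤ N`, is larger than `s` -/
def E (u : ∀ i, ι i → G) (M : G → Ω → Ω) (f : Ω → ℝ) (s : ℝ) {N : ℕ}
    (a : ∀ i : Fin N, ι i) : Set Ω :=
  {w | ∃ n, n ≤ N ∧ s < Y u M f n a w}

theorem measurableSet_E (hMP : ∀ g, MeasurePreserving (M g) μ μ) (hf : Measurable f) (s : ℝ)
    {N : ℕ} (a : ∀ i : Fin N, ι i) : MeasurableSet (E u M f s a) := by
  have : E u M f s a = ⋃ n : ℕ, {w | n ≤ N ∧ s < Y u M f n a w} := by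
    ext w; simp [E]
  rw [this]
  refine MeasurableSet.iUnion fun n => ?_
  by_cases h : n ≤ N
  · simpa [h] using measurableSet_lt measurable_const (measurable_Y (μ := μ) hMP hf n a)
  · simp [h]

/-- the indicator of `E` is the sum of the indicators of the `B n` -/
theorem indicator_E (s : ℝ) {N : ℕ} (a : ∀ i : Fin N, ι i) (w : Ω) :
    (E u M f s a).indicator (1 : Ω → ℝ) w =
      ∑ n ∈ Finset.range (N + 1), (B u M f s n a).indicator (1 : Ω → ℝ) w := by
  classical
  by_cases h : w ∈ E u M f s a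
  · rw [Set.indicator_of_mem h]
    obtain ⟨n₀, hn₀, hs₀⟩ := h
    -- the last index
    let S : Finset ℕ := (Finset.range (N + 1)).filter fun n => s < Y u M f n a w
    have hS : S.Nonempty := ⟨n₀, Finset.mem_filter.2 ⟨Finset.mem_range.2 (by omega), hs₀⟩⟩
    have hm := S.max'_mem hS
    set m := S.max' hS with hmdef
    obtain ⟨hm1, hm2⟩ := Finset.mem_filter.1 hm
    have hm3 : m ≤ N := by have := Finset.mem_range.1 hm1; omega
    have hlast : ∀ n, m < n → n ≤ N → Y u M f n a w ≤ s := by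
      intro n h1 h2
      by_contra h3
      have : n ≤ m := S.le_max' n (Finset.mem_filter.2 ⟨Finset.mem_range.2 (by omega),
        not_le.1 h3⟩)
      omega
    rw [Finset.sum_eq_single_of_mem m hm1]
    · rw [Set.indicator_of_mem]
      exact ⟨hm2, hlast⟩
    · intro n hn hne
      rw [Set.indicator_of_notMem]
      rintro ⟨h1, h2⟩
      have hn' : n ≤ N := by have := Finset.mem_range.1 hn; omega
      rcases lt_or_gt_of_ne hne with h3 | h3
      · exact absurd (h2 m h3 hm3) (not_le.2 hm2)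
      · exact absurd (hlast n h3 hn') (not_le.2 h1)
  · rw [Set.indicator_of_notMem h]
    symm
    refine Finset.sum_eq_zero fun n hn => ?_
    rw [Set.indicator_of_notMem]
    rintro ⟨h1, _⟩
    exact h ⟨n, by have := Finset.mem_range.1 hn; omega, h1⟩

/-- The weak type inequality. -/
theorem weak (hM1 : ∀ w, M 1 w = w) (hMm : ∀ g h w, M (g * h) w = M g (M h w))
    (hMP : ∀ g, MeasurePreserving (M g) μ μ) (hf : Measurable f) (hf0 : ∀ w, 0 ≤ f w)
    (hf1 : ∀ w, f w ≤ 1) (s : ℝ) (N : ℕ) :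
    s * av ι N (fun a => ∫ w, (E u M f s a).indicator (1 : Ω → ℝ) w ∂μ) ≤ ∫ w, f w ∂μ := by
  classical
  have hb : ∀ (S : Set Ω) (w : Ω), |S.indicator (1 : Ω → ℝ) w| ≤ 1 := by
    intro S w
    by_cases h : w ∈ S
    · rw [Set.indicator_of_mem h]; simp
    · rw [Set.indicator_of_notMem h]; simp
  have hb0 : ∀ (S : Set Ω) (w : Ω), 0 ≤ S.indicator (1 : Ω → ℝ) w := by
    intro S w
    exact Set.indicator_nonneg (fun _ _ => zero_le_one) w
  have hint : ∀ (S : Set Ω) (h : Ω → ℝ), MeasurableSet S → Measurable h → (∀ x, 0 ≤ h x) →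
      (∀ x, h x ≤ 1) → Integrable (fun x => S.indicator (1 : Ω → ℝ) x * h x) μ := by
    intro S h hS hh h0 h1
    refine Integrable.of_bound (C := 1)
      ((measurable_one.indicator hS).mul hh).aestronglyMeasurable (Filter.Eventually.of_forall ?_)
    intro x
    rw [Real.norm_eq_abs, abs_mul, abs_of_nonneg (h0 x)]
    calc _ ≤ 1 * 1 := mul_le_mul (hb S x) (h1 x) (h0 x) zero_le_one
      _ = 1 := one_mul 1
  have hint1 : ∀ (S : Set Ω), MeasurableSet S →
      Integrable (fun x => S.indicator (1 : Ω → ℝ) x) μ := by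
    intro S hS
    have := hint S (fun _ => 1) hS measurable_const (fun _ => zero_le_one) (fun _ => le_rfl)
    simpa using this
  have hmB := fun (n : ℕ) (a : ∀ i : Fin N, ι i) => measurableSet_B (μ := μ) (u := u) hMP hf s n a
  have hmE := fun (a : ∀ i : Fin N, ι i) => measurableSet_E (μ := μ) (u := u) hMP hf s a
  -- `∫ 1_E h = ∑ ∫ 1_B h`
  have hE : ∀ (a : ∀ i : Fin N, ι i) (h : Ω → ℝ), Measurable h → (∀ x, 0 ≤ h x) →
      (∀ x, h x ≤ 1) → ∫ w, (E u M f s a).indicator (1 : Ω → ℝ) w * h w ∂μ =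
      ∑ n ∈ Finset.range (N + 1), ∫ w, (B u M f s n a).indicator (1 : Ω → ℝ) w * h w ∂μ := by
    intro a h hh h0 h1
    rw [← integral_finsetSum _ fun n _ => hint _ h (hmB n a) hh h0 h1]
    refine integral_congr_ae (Filter.Eventually.of_forall fun w => ?_)
    show (E u M f s a).indicator (1 : Ω → ℝ) w * h w = _
    rw [indicator_E, Finset.sum_mul]
  have h1 : s * av ι N (fun a => ∫ w, (E u M f s a).indicator (1 : Ω → ℝ) w ∂μ) ≤
      ∑ n ∈ Finset.range (N + 1),
        av ι N (fun a => ∫ w, (B u M f s n a).indicator 1 w * Y u M f n a w ∂μ) := by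
    unfold av
    rw [← Finset.mul_sum, Finset.sum_comm, mul_left_comm, Finset.mul_sum]
    refine mul_le_mul_of_nonneg_left (Finset.sum_le_sum fun a _ => ?_) (by positivity)
    have h2 := hE a (fun _ => 1) measurable_const (fun _ => zero_le_one) (fun _ => le_rfl)
    simp only [mul_one] at h2
    rw [h2, Finset.mul_sum]
    refine Finset.sum_le_sum fun n _ => ?_
    rw [← integral_const_mul]
    refine integral_mono ((hint1 _ (hmB n a)).const_mul s)
      (hint _ _ (hmB n a) (measurable_Y (μ := μ) hMP hf n a) (Y_nonneg hf0 n a)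
        (Y_le_one hf1 n a)) fun w => ?_
    show s * (B u M f s n a).indicator (1 : Ω → ℝ) w ≤
      (B u M f s n a).indicator (1 : Ω → ℝ) w * Y u M f n a w
    by_cases h : w ∈ B u M f s n a
    · rw [Set.indicator_of_mem h]
      have := h.1
      simp only [Pi.one_apply, mul_one, one_mul]
      exact this.le
    · rw [Set.indicator_of_notMem h]
      simp
  have h2 : ∑ n ∈ Finset.range (N + 1),
        av ι N (fun a => ∫ w, (B u M f s n a).indicator 1 w * Y u M f n a w ∂μ) =
      ∑ n ∈ Finset.range (N + 1),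
        av ι N (fun a => ∫ w, (B u M f s n a).indicator 1 w * f w ∂μ) :=
    Finset.sum_congr rfl fun n _ => key_int hM1 hMm hMP hf hf0 hf1 s n
  have h3 : ∑ n ∈ Finset.range (N + 1),
        av ι N (fun a => ∫ w, (B u M f s n a).indicator 1 w * f w ∂μ) =
      av ι N (fun a => ∫ w, (E u M f s a).indicator 1 w * f w ∂μ) := by
    unfold av
    rw [← Finset.mul_sum, Finset.sum_comm]
    congr 1
    exact Finset.sum_congr rfl fun a _ => (hE a f hf hf0 hf1).symm
  have h4 : av ι N (fun a => ∫ w, (E u M f s a).indicator 1 w * f w ∂μ) ≤ ∫ w, f w ∂μ := by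
    conv_rhs => rw [← av_const (ι := ι) N (∫ w, f w ∂μ)]
    refine av_mono fun a => ?_
    have hfi : Integrable f μ := Integrable.of_bound (C := 1) hf.aestronglyMeasurable
      (Filter.Eventually.of_forall fun x => by
        rw [Real.norm_eq_abs, abs_of_nonneg (hf0 x)]; exact hf1 x)
    refine integral_mono (hint _ _ (hmE a) hf hf0 hf1) hfi fun w => ?_
    show (E u M f s a).indicator (1 : Ω → ℝ) w * f w ≤ f w
    calc _ ≤ 1 * f w := mul_le_mul_of_nonneg_right ((le_abs_self _).trans (hb _ w)) (hf0 w)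
      _ = f w := one_mul _
  linarith

theorem gp_eq (u : ∀ i, ι i → G) {n N : ℕ} (h : n ≤ N) : ∀ a : ∀ i : Fin N, ι i,
    gp u n a = ∏ i : Fin n, u i (a (Fin.castLE h i)) := by
  induction N, h using Nat.le_induction with
  | base =>
    intro a
    unfold gp
    refine Finset.prod_congr rfl fun i _ => ?_
    rw [if_pos i.2]
    rfl
  | succ N h ih =>
    intro a
    unfold gp
    rw [Fin.prod_univ_castSucc, if_neg (by simpa using h), mul_one]
    exact ih (fun i => a i.castSucc)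

/-- The average of `f (g(a') / g(a) w)` over all pairs of tuples of length `n`. -/
noncomputable def P (u : ∀ i, ι i → G) (M : G → Ω → Ω) (f : Ω → ℝ) (n : ℕ) (w : Ω) : ℝ :=
  av ι n (fun a => av ι n (fun a' =>
    f (M ((∏ i : Fin n, u i (a' i)) * (∏ i : Fin n, u i (a i))⁻¹) w)))

theorem P_eq {n N : ℕ} (h : n ≤ N) (w : Ω) :
    P u M f n w = av ι N (fun a => Y u M f n a w) := by
  unfold P
  rw [← av_castLE h]
  congr 1
  funext a
  unfold Y
  rw [← av_castLE h]
  congr 1
  funext a'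
  rw [gp_eq u h a, gp_eq u h a']

theorem measurable_P (hMP : ∀ g, MeasurePreserving (M g) μ μ) (hf : Measurable f) (n : ℕ) :
    Measurable (P u M f n) := by
  unfold P av
  refine Measurable.const_mul ?_ _
  refine Finset.measurable_sum _ fun a _ => Measurable.const_mul ?_ _
  exact Finset.measurable_sum _ fun a' _ => hf.comp (hMP _).measurable

/-- **Rota's maximal inequality** (finite horizon). -/
theorem rota_fin (hM1 : ∀ w, M 1 w = w) (hMm : ∀ g h w, M (g * h) w = M g (M h w))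
    (hMP : ∀ g, MeasurePreserving (M g) μ μ) (hf : Measurable f) (hf0 : ∀ w, 0 ≤ f w)
    (hf1 : ∀ w, f w ≤ 1) {s lam : ℝ} (hs : 0 < s) (hlam : 0 < lam) (N : ℕ) :
    μ {w | ∃ n, n ≤ N ∧ lam < P u M f n w} ≤
      ENNReal.ofReal ((s + (∫ w, f w ∂μ) / s) / lam) := by
  classical
  set Z : Ω → ℝ := fun w => s + av ι N (fun a => (E u M f s a).indicator (1 : Ω → ℝ) w) with hZ
  have hmE := fun (a : ∀ i : Fin N, ι i) => measurableSet_E (μ := μ) (u := u) hMP hf s a
  have hsub : {w | ∃ n, n ≤ N ∧ lam < P u M f n w} ⊆ {w | lam ≤ Z w} := by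
    rintro w ⟨n, hn, hl⟩
    refine hl.le.trans ?_
    rw [P_eq hn]
    have : av ι N (fun a => Y u M f n a w) ≤
        av ι N (fun a => s + (E u M f s a).indicator (1 : Ω → ℝ) w) := by
      refine av_mono fun a => ?_
      by_cases h : s < Y u M f n a w
      · have h1 : w ∈ E u M f s a := ⟨n, hn, h⟩
        rw [Set.indicator_of_mem h1]
        have := Y_le_one (u := u) (M := M) hf1 n a w
        simp only [Pi.one_apply]
        linarith
      · have h2 : 0 ≤ (E u M f s a).indicator (1 : Ω → ℝ) w :=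
          Set.indicator_nonneg (fun _ _ => zero_le_one) w
        have := not_lt.1 h
        linarith
    refine this.trans (le_of_eq ?_)
    rw [av_add, av_const]
  have hi : ∀ a : ∀ i : Fin N, ι i, Integrable (fun x => (E u M f s a).indicator (1 : Ω → ℝ) x) μ :=
    fun a => (integrable_const (1 : ℝ)).indicator (hmE a)
  have hi2 : Integrable (fun w => av ι N (fun a => (E u M f s a).indicator (1 : Ω → ℝ) w)) μ := by
    unfold av
    exact (integrable_finsetSum _ fun a _ => hi a).const_mul _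
  have hZi : Integrable Z μ := (integrable_const s).add hi2
  have hZ0 : 0 ≤ᵐ[μ] Z := Filter.Eventually.of_forall fun w => by
    show 0 ≤ s + av ι N (fun a => (E u M f s a).indicator (1 : Ω → ℝ) w)
    have : 0 ≤ av ι N (fun a => (E u M f s a).indicator (1 : Ω → ℝ) w) := by
      conv_lhs => rw [← av_const (ι := ι) N 0]
      exact av_mono fun a => Set.indicator_nonneg (fun _ _ => zero_le_one) w
    linarith
  have hmk := mul_meas_ge_le_integral_of_nonneg hZ0 hZi lam
  have hZint : ∫ w, Z w ∂μ ≤ s + (∫ w, f w ∂μ) / s := by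
    have h1 : ∫ w, Z w ∂μ = s + av ι N (fun a => ∫ w, (E u M f s a).indicator (1 : Ω → ℝ) w ∂μ) := by
      rw [hZ, integral_add (integrable_const s) hi2]
      congr 1
      · simp
      · unfold av
        rw [integral_const_mul, integral_finsetSum _ fun a _ => hi a]
    rw [h1]
    have h2 := weak (u := u) hM1 hMm hMP hf hf0 hf1 s N
    have h3 : av ι N (fun a => ∫ w, (E u M f s a).indicator (1 : Ω → ℝ) w ∂μ) ≤
        (∫ w, f w ∂μ) / s := by
      rw [le_div_iff₀ hs, mul_comm]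
      exact h2
    linarith
  have h5 : μ.real {w | lam ≤ Z w} ≤ (s + (∫ w, f w ∂μ) / s) / lam := by
    rw [le_div_iff₀ hlam, mul_comm]
    exact hmk.trans hZint
  refine (measure_mono hsub).trans ?_
  rw [← ENNReal.ofReal_toReal (measure_ne_top μ {w | lam ≤ Z w})]
  exact ENNReal.ofReal_le_ofReal h5

/-- **Rota's maximal inequality.** -/
theorem rota (hM1 : ∀ w, M 1 w = w) (hMm : ∀ g h w, M (g * h) w = M g (M h w))
    (hMP : ∀ g, MeasurePreserving (M g) μ μ) (hf : Measurable f) (hf0 : ∀ w, 0 ≤ f w)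
    (hf1 : ∀ w, f w ≤ 1) {lam : ℝ} (hlam : 0 < lam) :
    μ {w | ∃ n, lam < P u M f n w} ≤ ENNReal.ofReal (2 * √(∫ w, f w ∂μ) / lam) := by
  have hI0 : 0 ≤ ∫ w, f w ∂μ := integral_nonneg hf0
  have key : ∀ s : ℝ, 0 < s → μ {w | ∃ n, lam < P u M f n w} ≤
      ENNReal.ofReal ((s + (∫ w, f w ∂μ) / s) / lam) := by
    intro s hs
    have h1 : {w | ∃ n, lam < P u M f n w} = ⋃ N : ℕ, {w | ∃ n, n ≤ N ∧ lam < P u M f n w} := by
      ext w
      simp only [Set.mem_ofPred_eq, Set.mem_iUnion]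
      exact ⟨fun ⟨n, h⟩ => ⟨n, n, le_rfl, h⟩, fun ⟨_, n, _, h⟩ => ⟨n, h⟩⟩
    have h2 : Monotone (fun N : ℕ => {w | ∃ n, n ≤ N ∧ lam < P u M f n w}) := by
      intro N N' hN w
      rintro ⟨n, hn, h⟩
      exact ⟨n, hn.trans hN, h⟩
    rw [h1, h2.measure_iUnion]
    exact iSup_le fun N => rota_fin hM1 hMm hMP hf hf0 hf1 hs hlam N
  rcases eq_or_lt_of_le hI0 with h0 | hpos
  · rw [← h0, Real.sqrt_zero, mul_zero, zero_div, ENNReal.ofReal_zero]
    refine le_of_forall_pos_le_add fun ε hε => ?_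
    rcases eq_or_ne ε ⊤ with h | h
    · rw [h]; simp
    · have h2 := key (lam * ε.toReal) (mul_pos hlam (ENNReal.toReal_pos hε.ne' h))
      rw [← h0, zero_div, add_zero, mul_div_cancel_left₀ _ hlam.ne', ENNReal.ofReal_toReal h] at h2
      simpa using h2
  · have h2 := key (√(∫ w, f w ∂μ)) (Real.sqrt_pos.2 hpos)
    rwa [Real.div_sqrt, ← two_mul] at h2

/-- **Rota's maximal inequality** for a set. -/
theorem rota_set (hM1 : ∀ w, M 1 w = w) (hMm : ∀ g h w, M (g * h) w = M g (M h w))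
    (hMP : ∀ g, MeasurePreserving (M g) μ μ) {A : Set Ω} (hA : MeasurableSet A)
    {lam : ℝ} (hlam : 0 < lam) :
    μ {w | ∃ n, lam < P u M (A.indicator 1) n w} ≤
      ENNReal.ofReal (2 * √(μ.real A) / lam) := by
  have h := rota (u := u) (M := M) (μ := μ) (f := A.indicator 1) hM1 hMm hMP
    (measurable_one.indicator hA) (fun w => Set.indicator_nonneg (fun _ _ => zero_le_one) w)
    (fun w => by
      by_cases h : w ∈ A
      · rw [Set.indicator_of_mem h]; simp
      · rw [Set.indicator_of_notMem h]; simp) hlam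
  rwa [integral_indicator_one hA] at h

end

end Pool.Agent.Helper24.RG
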